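import Mathlib
import Pool.Agent.N600.G3.Stm

/-!
# G3/CA (helper700): torsion-free sections of rank one
-/

set_option autoImplicit false

namespace Pool.Agent.N700.G3

open Pool.Agent.N600.G3
open scoped TensorProduct

universe u

/-- a prime of the support with a quotient which is not finite over `ℤ` -/
theorem exists_supp (R : Type u) [CommRing R] [IsNoetherianRing R] (N : Type u) [AddCommGroup N]
    [Module R N] [hf : Module.Finite R N] :
    Module.Finite ℤ N ∨
      ∃ p : PrimeSpectrum R, p ∈ Module.support R N ∧ ¬ Module.Finite ℤ (R ⧸ p.asIdeal) := by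
  induction hf using IsNoetherianRing.induction_on_isQuotientEquivQuotientPrime R with
  | subsingleton N =>
    left
    infer_instance
  | quotient N p e =>
    by_cases h : Module.Finite ℤ (R ⧸ p.asIdeal)
    · left
      exact Module.Finite.equiv (e.symm.toAddEquiv.toIntLinearEquiv)
    · right
      refine ⟨p, ?_, h⟩
      rw [e.support_eq, Module.mem_support_iff_of_finite, Ideal.annihilator_quotient]
  | exact N₁ N₂ N₃ f g hf hg hfg h₁ h₃ =>
    rcases h₁ with h₁ | ⟨p, hp, hp'⟩
    · rcases h₃ with h₃ | ⟨p, hp, hp'⟩
      · left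
        have e1 : Function.Exact f.toAddMonoidHom.toIntLinearMap g.toAddMonoidHom.toIntLinearMap :=
          hfg
        exact Module.Finite.of_exact e1 hg
      · right
        exact ⟨p, Module.support_subset_of_surjective g hg hp, hp'⟩
    · right
      exact ⟨p, Module.support_subset_of_injective f hf hp, hp'⟩

theorem t_ca : S_CA.{u} := by
  intro R _ _ N _ _ _ hN
  rcases exists_supp R N with h | ⟨p, hp, hp'⟩
  · exact absurd h hN
  rw [Module.mem_support_iff_nontrivial_residueField_tensorProduct] at hp
  obtain ⟨v, hv⟩ := exists_ne (0 : p.asIdeal.ResidueField ⊗[R] N)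
  obtain ⟨l, hl⟩ : ∃ l : Module.Dual p.asIdeal.ResidueField (p.asIdeal.ResidueField ⊗[R] N),
      l v ≠ 0 := by
    by_contra hcon
    push Not at hcon
    exact hv ((Module.forall_dual_apply_eq_zero_iff _ v).1 hcon)
  let f : N →ₗ[R] p.asIdeal.ResidueField :=
    (l.restrictScalars R) ∘ₗ (TensorProduct.mk R p.asIdeal.ResidueField N 1)
  refine ⟨p.asIdeal, p.2, hp', p.asIdeal.ResidueField, inferInstance,
    algebraMap R p.asIdeal.ResidueField, f.toAddMonoidHom, p.asIdeal.ker_algebraMap_residueField,
    ?_, ?_⟩
  · intro r n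
    show f (r • n) = _ * f n
    rw [map_smul, Algebra.smul_def]
  · intro h0
    apply hl
    have h1 : ∀ n : N, l (1 ⊗ₜ[R] n) = 0 := fun n => DFunLike.congr_fun h0 n
    have h2 : l = 0 := by
      apply TensorProduct.AlgebraTensorModule.curry_injective
      ext n
      simpa using h1 n
    rw [h2]
    rfl

end Pool.Agent.N700.G3
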